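import Pool.Agent.Helper39.DL.Goals
import Pool.Agent.Helper31.Del.Final

/-! Counting. -/

namespace Pool.Agent.Helper39.DL

open Module Pool.Agent.Helper65.Delone Pool.Agent.Helper31.Del
open scoped RealInnerProductSpace

variable {E : Type} [NormedAddCommGroup E] [InnerProductSpace ℝ E]

/-- the operator of a linear isometry -/
noncomputable def op (A : E ≃ₗᵢ[ℝ] E) : E →L[ℝ] E := (A.toContinuousLinearEquiv : E →L[ℝ] E)

theorem op_apply (A : E ≃ₗᵢ[ℝ] E) (v : E) : op A v = A v := rfl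

theorem op_inj {A B : E ≃ₗᵢ[ℝ] E} (h : op A = op B) : A = B := by
  ext v
  have := congrArg (fun T : E →L[ℝ] E => T v) h
  exact this

theorem op_norm_le (A : E ≃ₗᵢ[ℝ] E) : ‖op A‖ ≤ 1 := by
  apply ContinuousLinearMap.opNorm_le_bound _ zero_le_one
  intro v
  rw [op_apply, LinearIsometryEquiv.norm_map, one_mul]

theorem nr_of_norm {A B : E ≃ₗᵢ[ℝ] E} {c : ℝ} (h : ‖op A - op B‖ ≤ c) : Nr (B⁻¹ * A) c := by
  intro v
  have h2 := (op A - op B).le_opNorm v
  have h3 : (op A - op B) v = A v - B v := rfl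
  rw [h3] at h2
  have h4 : 0 ≤ ‖v‖ := norm_nonneg v
  have h8 : (B⁻¹ * A) v - v = B.symm (A v - B v) := by
    rw [map_sub, LinearIsometryEquiv.symm_apply_apply]; rfl
  rw [h8, LinearIsometryEquiv.norm_map]
  nlinarith

/-- packing in a subspace of operators -/
theorem pack_span [FiniteDimensional ℝ E] (T : Finset (E ≃ₗᵢ[ℝ] E)) (θ : ℝ) (hθ : 0 < θ)
    (n : ℕ) (U : Submodule ℝ (E →L[ℝ] E)) (hU : finrank ℝ U ≤ n) (hT : ∀ A ∈ T, op A ∈ U)
    (hs : ∀ A ∈ T, ∀ B ∈ T, A ≠ B → θ ≤ ‖op A - op B‖) :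
    (T.card : ℝ) ≤ (1 + 2 / θ) ^ n := by
  classical
  let φ : {A // A ∈ T} → U := fun A => ⟨op A.1, hT A.1 A.2⟩
  have hφ : Function.Injective φ := by
    intro A B hAB
    have h1 : op A.1 = op B.1 := congrArg Subtype.val hAB
    exact Subtype.ext (op_inj h1)
  have h1 := packing_gen (T.attach.image φ) θ hθ (by
    intro c hc
    obtain ⟨A, -, rfl⟩ := Finset.mem_image.1 hc
    exact op_norm_le A.1) (by
    intro c hc e he hne
    obtain ⟨A, -, rfl⟩ := Finset.mem_image.1 hc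
    obtain ⟨B, -, rfl⟩ := Finset.mem_image.1 he
    have hAB : A.1 ≠ B.1 := by
      intro h
      exact hne (by rw [Subtype.ext h])
    exact hs A.1 A.2 B.1 B.2 hAB)
  rw [Finset.card_image_of_injective _ hφ, Finset.card_attach] at h1
  refine h1.trans ?_
  apply pow_le_pow_right₀ _ hU
  have : 0 < 2 / θ := by positivity
  linarith

/-- a maximal separated subset -/
theorem exNet (s : Finset (E ≃ₗᵢ[ℝ] E)) (c : ℝ) (hc : 0 < c) :
    ∃ S : Finset (E ≃ₗᵢ[ℝ] E), S ⊆ s ∧ (∀ A ∈ S, ∀ B ∈ S, A ≠ B → c ≤ ‖op A - op B‖) ∧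
      ∀ A ∈ s, ∃ B ∈ S, ‖op A - op B‖ ≤ c := by
  classical
  induction s using Finset.induction_on with
  | empty => exact ⟨∅, by simp, by simp, by simp⟩
  | insert a s _ ih =>
    obtain ⟨S, h1, h2, h3⟩ := ih
    by_cases ha : ∃ B ∈ S, ‖op a - op B‖ ≤ c
    · refine ⟨S, h1.trans (Finset.subset_insert _ _), h2, ?_⟩
      intro A hA
      rcases Finset.mem_insert.1 hA with rfl | hA
      · exact ha
      · exact h3 A hA
    · push Not at ha
      refine ⟨insert a S, Finset.insert_subset_insert _ h1, ?_, ?_⟩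
      · intro A hA B hB hne
        rcases Finset.mem_insert.1 hA with hA1 | hA1 <;>
          rcases Finset.mem_insert.1 hB with hB1 | hB1
        · exact absurd (hA1.trans hB1.symm) hne
        · rw [hA1]; exact (ha B hB1).le
        · rw [hB1, norm_sub_rev]; exact (ha A hA1).le
        · exact h2 A hA1 B hB1 hne
      · intro A hA
        rcases Finset.mem_insert.1 hA with rfl | hA
        · exact ⟨A, Finset.mem_insert_self _ _, by rw [sub_self, norm_zero]; exact hc.le⟩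
        · obtain ⟨B, hB, hAB⟩ := h3 A hA
          exact ⟨B, Finset.mem_insert_of_mem hB, hAB⟩

theorem finrank_op [FiniteDimensional ℝ E] : finrank ℝ (E →L[ℝ] E) = finrank ℝ E ^ 2 := by
  have e := (LinearMap.toContinuousLinearMap : (E →ₗ[ℝ] E) ≃ₗ[ℝ] (E →L[ℝ] E))
  rw [← e.finrank_eq, finrank_linearMap, sq]

/-- counting in a group of linear isometries whose elements near the identity are trivial -/
theorem card_group [FiniteDimensional ℝ E] (hNC : NearComm E) (hCD : CommDim E)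
    (G : Subgroup (E ≃ₗᵢ[ℝ] E)) (θ : ℝ) (hθ : 0 < θ) (hG : ∀ A ∈ G, Nr A θ → A = 1)
    (s : Finset (E ≃ₗᵢ[ℝ] E)) (hs : ∀ A ∈ s, A ∈ G) :
    (s.card : ℝ) ≤ 9 ^ (finrank ℝ E ^ 2) * (1 + 2 / θ) ^ finrank ℝ E := by
  classical
  -- separation
  have hsep : ∀ A ∈ G, ∀ B ∈ G, A ≠ B → θ ≤ ‖op A - op B‖ := by
    intro A hA B hB hne
    by_contra hcon
    push Not at hcon
    apply hne
    have h1 := hG (B⁻¹ * A) (G.mul_mem (G.inv_mem hB) hA) (nr_of_norm hcon.le)
    calc A = B * (B⁻¹ * A) := by group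
      _ = B := by rw [h1, mul_one]
  -- finiteness
  have hfin : Finite G := by
    by_contra hinf
    have hinf' : (G : Set (E ≃ₗᵢ[ℝ] E)).Infinite := fun h => hinf h.to_subtype
    obtain ⟨t, ht1, ht2⟩ := Set.Infinite.exists_subset_card_eq hinf'
      (⌈(1 + 2 / θ) ^ (finrank ℝ E ^ 2)⌉₊ + 1)
    have h1 := pack_span t θ hθ (finrank ℝ E ^ 2) ⊤ (by rw [finrank_top, finrank_op])
      (fun _ _ => Submodule.mem_top) (fun A hA B hB => hsep A (ht1 hA) B (ht1 hB))
    have h2 := h1.trans (Nat.le_ceil _)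
    have h3 : t.card ≤ ⌈(1 + 2 / θ) ^ (finrank ℝ E ^ 2)⌉₊ := by exact_mod_cast h2
    omega
  obtain ⟨S, hS1, hS2, hS3⟩ := exNet s (1 / 4) (by norm_num)
  choose! β hβ1 hβ2 using hS3
  have hScard : (S.card : ℝ) ≤ 9 ^ (finrank ℝ E ^ 2) := by
    have h1 := pack_span S (1 / 4) (by norm_num) (finrank ℝ E ^ 2) ⊤
      (by rw [finrank_top, finrank_op]) (fun _ _ => Submodule.mem_top) hS2
    have h2 : (1 : ℝ) + 2 / (1 / 4) = 9 := by norm_num
    rwa [h2] at h1
  let T : Finset (E ≃ₗᵢ[ℝ] E) := s.image (fun A => (β A)⁻¹ * A)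
  have hTG : ∀ A ∈ T, A ∈ G ∧ Nr A (1 / 4) := by
    intro C hC
    obtain ⟨A, hA, rfl⟩ := Finset.mem_image.1 hC
    exact ⟨G.mul_mem (G.inv_mem (hs _ (hS1 (hβ1 A hA)))) (hs A hA), nr_of_norm (hβ2 A hA)⟩
  have hTcard : (T.card : ℝ) ≤ (1 + 2 / θ) ^ finrank ℝ E := by
    refine pack_span T θ hθ (finrank ℝ E) (Submodule.span ℝ
      ((fun A : E ≃ₗᵢ[ℝ] E => (A.toContinuousLinearEquiv : E →L[ℝ] E)) '' (T : Set _)))
      (hCD _ ?_) ?_ ?_
    · intro A hA B hB
      exact hNC G hfin A (hTG A hA).1 B (hTG B hB).1 (hTG A hA).2 (hTG B hB).2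
    · intro A hA
      exact Submodule.subset_span ⟨A, hA, rfl⟩
    · intro A hA B hB
      exact hsep A (hTG A hA).1 B (hTG B hB).1
  have hcard : s.card ≤ S.card * T.card := by
    rw [← Finset.card_product]
    apply Finset.card_le_card_of_injOn (fun A => (β A, (β A)⁻¹ * A))
    · intro A hA
      exact Finset.mem_product.2 ⟨hβ1 A hA, Finset.mem_image.2 ⟨A, hA, rfl⟩⟩
    · intro A _ B _ hAB
      have h1 : β A = β B := congrArg Prod.fst hAB
      have h2 : (β A)⁻¹ * A = (β B)⁻¹ * B := congrArg Prod.snd hAB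
      rw [h1] at h2
      exact mul_left_cancel h2
  calc (s.card : ℝ) ≤ ((S.card * T.card : ℕ) : ℝ) := by exact_mod_cast hcard
    _ = S.card * T.card := by push_cast; rfl
    _ ≤ 9 ^ (finrank ℝ E ^ 2) * (1 + 2 / θ) ^ finrank ℝ E := by gcongr

end Pool.Agent.Helper39.DL
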