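import Pool.Agent.Helper39.DL.Goals
import Pool.Agent.Helper31.Del.Final

/-! The two fields of affine subspaces. -/

namespace Pool.Agent.Helper39.DL

open Module Pool.Agent.Helper65.Delone Pool.Agent.Helper31.Del
open scoped RealInnerProductSpace

variable {E : Type} [NormedAddCommGroup E] [InnerProductSpace ℝ E]

theorem levels2 [FiniteDimensional ℝ E] (hBase : Base E) (hS : SmallCodim E) : Levels2 E := by
  intro X m θ hm hX hcong hθ hθd hne
  obtain ⟨d, hd⟩ : ∃ d, d = finrank ℝ E := ⟨_, rfl⟩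
  rw [← hd] at hθd ⊢
  obtain ⟨x₀, hx₀, -⟩ := hX.dens 0
  have hcodim : ∀ x ∈ X, ∀ A ∈ Sym X θ 2 x, A ≠ 1 → θ ≤ 1 / 80 → finrank ℝ (fixSpace A) + 2 ≤ d := by
    intro x hx A hA hA1 hθ80
    rw [hd]
    exact hS A (fun v => by
      have := hA.2.1 v
      have h5 := norm_nonneg v
      nlinarith) hA1
  have hdpos : 0 < d := by
    rcases Nat.eq_zero_or_pos d with h0 | h0
    · exfalso
      obtain ⟨A, hA, hA1⟩ := hne x₀ hx₀
      apply hA1
      have hsub : Subsingleton E := finrank_zero_iff.1 (by rw [← hd]; exact h0)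
      ext v
      exact Subsingleton.elim _ _
    · exact h0
  have hdR1 : (1 : ℝ) ≤ d := by exact_mod_cast hdpos
  have hθ80 : θ ≤ 1 / 80 := by
    have h1 : (1 : ℝ) ≤ (d : ℝ) ^ 2 := one_le_pow₀ hdR1
    have h2 : (1 : ℝ) ≤ (d : ℝ) ^ 2 * (d + 1) := by nlinarith
    have h3 : 1228800 * (d : ℝ) ^ 2 * (d + 1) * θ = 1228800 * ((d : ℝ) ^ 2 * (d + 1) * θ) := by ring
    rw [h3] at hθd
    have h4 : θ ≤ (d : ℝ) ^ 2 * (d + 1) * θ := by nlinarith
    linarith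
  -- dimensions
  have hdim : ∀ κ : ℝ, 0 ≤ κ → ∀ x ∈ X, finrank ℝ (Dir X θ κ x) + 2 ≤ d := by
    intro κ hκ x hx
    obtain ⟨A, hA, hA1⟩ := hne x hx
    have h1 : (x, A) ∈ Fam X θ κ x := by
      refine ⟨hx, ?_, sym_mono (by linarith) hA⟩
      change ‖x - x‖ ≤ κ
      rw [sub_self, norm_zero]; exact hκ
    have h2 : Dir X θ κ x ≤ fixSpace A := fun v hv => hv _ h1
    have h3 := Submodule.finrank_mono h2
    have h4 := hcodim x hx A hA hA1 hθ80
    omega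
  have hd2 : 2 ≤ d := by
    have := hdim 0 le_rfl x₀ hx₀
    omega
  have hdR : (2 : ℝ) ≤ d := by exact_mod_cast hd2
  -- the constants
  obtain ⟨κ₀, hκ₀⟩ : ∃ κ₀ : ℝ, κ₀ = 1 / (3072 * (d : ℝ) ^ 2) := ⟨_, rfl⟩
  obtain ⟨K, hK⟩ : ∃ K : ℝ, K = 1 / (8 * (d : ℝ)) := ⟨_, rfl⟩
  have hκ0 : 0 < κ₀ := by rw [hκ₀]; positivity
  have hK0 : 0 < K := by rw [hK]; positivity
  have hKd : d * K = 1 / 8 := by rw [hK]; field_simp
  have hKκ : 3 * κ₀ = (K / 4) ^ 2 := by rw [hκ₀, hK]; field_simp; norm_num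
  have hK16 : K ≤ 1 / 16 := by nlinarith
  have hκle : κ₀ ≤ 1 / 10000 := by nlinarith
  have hθκ : 400 * (d + 1) * θ ≤ κ₀ := by
    rw [hκ₀, le_div_iff₀ (by positivity)]
    linarith
  -- nonempty
  have hnonempty : ∀ κ : ℝ, κ ≤ 1 / 4 → ∀ x ∈ X,
      ∃ p ∈ LW X θ κ x, ‖p - x‖ ≤ 2 * ((d : ℝ) + 1) := by
    intro κ hκ x hx
    obtain ⟨f, hf1, hf⟩ := base_app hBase hm hX.sep hθ (κ := 1 / 4) (s := 2 - κ) (t := κ)
      (by norm_num) (by norm_num) (by rw [← hd]; linarith) (by linarith) (by linarith) hx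
    exact ⟨f, fun g hg => hf g.1 hg.1 hg.2.1 g.2 hg.2.2, by rw [hd]; exact hf1⟩
  -- dimension is the same at all points
  have hdimeq : ∀ κ : ℝ, κ ≤ 2 → ∀ x ∈ X, ∀ y ∈ X,
      finrank ℝ (Dir X θ κ x) = finrank ℝ (Dir X θ κ y) := by
    intro κ hκ x hx y hy
    obtain ⟨B, hB⟩ := hcong x hx y hy
    obtain ⟨B', hB'⟩ := hcong y hy x hx
    exact le_antisymm (finrank_Dir_le hB' hκ) (finrank_Dir_le hB hκ)
  -- the plateau
  have hcnn : ∀ j : ℕ, j ≤ d - 1 → 1 / 8 ≤ 1 / 4 - (j : ℝ) * K := by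
    intro j hj
    have h1 : (j : ℝ) ≤ d := by
      have : j ≤ d := by omega
      exact_mod_cast this
    nlinarith
  obtain ⟨j, hj, hfj⟩ := plateau (fun i => finrank ℝ (Dir X θ (1 / 4 - (i : ℝ) * K) x₀)) (by
      intro i k hik
      apply Submodule.finrank_mono
      apply Dir_le
      rw [sub_self, norm_zero]
      have : (i : ℝ) ≤ k := by exact_mod_cast hik
      nlinarith) (d - 2) (by
      have h9 := hdim (1 / 4 - ((d - 2 + 1 : ℕ) : ℝ) * K) (by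
        have := hcnn (d - 2 + 1) (by omega)
        linarith) x₀ hx₀
      change finrank ℝ (Dir X θ (1 / 4 - ((d - 2 + 1 : ℕ) : ℝ) * K) x₀) ≤ d - 2
      omega)
  obtain ⟨c, hc⟩ : ∃ c : ℝ, c = 1 / 4 - ((j + 1 : ℕ) : ℝ) * K := ⟨_, rfl⟩
  have hcK : 1 / 4 - (j : ℝ) * K = c + K := by rw [hc]; push_cast; ring
  have hc8 : 1 / 8 ≤ c := by rw [hc]; exact hcnn (j + 1) (by omega)
  have hcK4 : c + K ≤ 1 / 4 := by
    rw [← hcK]
    have : (0 : ℝ) ≤ j := Nat.cast_nonneg _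
    nlinarith
  have hfj' : finrank ℝ (Dir X θ (c + K) x₀) = finrank ℝ (Dir X θ c x₀) := by
    rw [← hcK, hc]
    exact hfj
  have heq : ∀ x ∈ X, LW X θ (c + K) x = LW X θ c x := by
    intro x hx
    obtain ⟨p, hp, -⟩ := hnonempty (c + K) hcK4 x hx
    apply eq_LW (by linarith) ⟨p, hp⟩
    rw [hdimeq (c + K) (by linarith) x hx x₀ hx₀, hfj', hdimeq c (by linarith) x₀ hx₀ x hx]
  refine ⟨3 * κ₀, K, 2 * (d + 1), fun x => LW X θ κ₀ x, fun x => LW X θ c x, by linarith,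
    by linarith, ?_, by positivity, ?_, ?_, ?_, ?_, ?_⟩
  · rw [hKκ, Real.sqrt_sq (by positivity)]
    linarith
  · intro x hx
    obtain ⟨p, hp, -⟩ := hnonempty κ₀ (by linarith) x hx
    rw [LW_direction hp]
    exact hdim κ₀ hκ0.le x hx
  · intro x hx
    apply LW_le
    rw [sub_self, norm_zero]
    linarith
  · intro x hx
    exact hnonempty c (by linarith) x hx
  · intro x hx y hy hxy
    change LW X θ c x = LW X θ c y
    apply le_antisymm
    · rw [← heq x hx]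
      apply LW_le
      rw [norm_sub_rev]; linarith
    · rw [← heq y hy]
      apply LW_le
      linarith
  · intro z hz
    obtain ⟨f, hf1, hf2⟩ := base_app hBase hm hX.sep hθ (κ := κ₀) (s := 2 - κ₀) (t := 2 - 2 * κ₀)
      hκ0 (by linarith) (by rw [← hd]; exact hθκ) (by linarith) (by linarith) hz
    refine ⟨f, by rw [hd]; exact hf1, fun x hx hxz g hg => hf2 g.1 hg.1 ?_ g.2 hg.2.2⟩
    have h1 : g.1 - z = (g.1 - x) + (x - z) := by abel
    rw [h1]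
    have h2 := hg.2.1
    calc _ ≤ ‖g.1 - x‖ + ‖x - z‖ := norm_add_le _ _
      _ ≤ _ := by linarith

end Pool.Agent.Helper39.DL
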