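import Pool.Agent.Helper39.DL.TT
import Pool.Agent.Helper39.DL.LV
import Pool.Agent.Helper39.DL.Cnt
import Pool.Agent.Helper96.DL.LG
import Pool.Agent.Helper79.DL.NC
import Pool.Agent.Helper86.DL.CD
import Pool.Agent.Helper94.DL.SL
import Pool.Agent.Helper12.DL.CM

/-! The single exponential bound. -/

namespace Pool.Agent.Helper39.DL

open Module Pool.Agent.Helper65.Delone Pool.Agent.Helper31.Del
open scoped RealInnerProductSpace

variable {E : Type} [NormedAddCommGroup E] [InnerProductSpace ℝ E] [FiniteDimensional ℝ E]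

theorem topo2_all : Topo2 E := by
  borelize E
  exact topo2 (Pool.Agent.Helper68.Del.coverSurj E Pool.Agent.Helper33.Del.bddSurj)
    (Pool.Agent.Helper96.DL.linGap E) (Pool.Agent.Helper94.DL.slabVol E)
    (Pool.Agent.Helper12.DL.countVol E)

theorem nearComm_all : NearComm E :=
  Pool.Agent.Helper79.DL.nearComm E (Pool.Agent.Helper68.Del.frob E)

/-- no symmetry of a cluster is close to the identity (radius one) -/
theorem small_trivial_one2 {X : Set E} {D θ : ℝ} (hD : 0 < D)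
    (h : SepDense X D 1)
    (hcong : ∀ x ∈ X, ∀ y ∈ X, ∃ B : E ≃ₗᵢ[ℝ] E, Iso X 2 x y B) (hθ : 0 ≤ θ)
    (hθd : 1228800 * (finrank ℝ E : ℝ) ^ 2 * (finrank ℝ E + 1) * θ ≤ 1)
    {x : E} (hx : x ∈ X) {A : E ≃ₗᵢ[ℝ] E} (hA : Iso X 2 x x A) (hs : Nr A θ) : A = 1 := by
  by_contra hA1
  have hfo : FiniteOrder E := finiteOrder finiteNear (existsPos lemM)
  obtain ⟨N, hN, hAN⟩ := hfo X D 1 hD h x hx A (by rw [mul_one]; exact hA)
  have hfam : (x, A) ∈ Fam X θ 0 x :=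
    ⟨hx, by change ‖x - x‖ ≤ 0; rw [sub_self, norm_zero],
      by rw [sub_zero]; exact ⟨hA, hs, N, hN, hAN⟩⟩
  have hne : ∀ y ∈ X, ∃ A' ∈ Sym X θ 2 y, A' ≠ 1 := by
    intro y hy
    obtain ⟨B, hB⟩ := hcong x hx y hy
    have h1 := sym_conj hB (by norm_num) hfam
    have h2 := h1.2.2
    simp only [sub_self, map_zero, add_zero, sub_zero] at h2
    refine ⟨_, h2, ?_⟩
    intro h3
    apply hA1
    have h4 : A = B⁻¹ * (B * A * B⁻¹) * B := by group
    rw [h4, h3]; group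
  obtain ⟨η, K, C₀, W, Wc, h1, h2, h3, h4, h5, h6, h7, h8, h9⟩ :=
    levels2 base_all smallCodim X D θ hD h hcong hθ hθd hne
  exact topo2_all X D η K C₀ W Wc hD h h1 h2 h3 h4 h5 h6 h7 h8 h9

/-- no symmetry of a cluster is close to the identity -/
theorem small_trivial2 {X : Set E} {D R θ : ℝ} (hD : 0 < D) (hR : 0 < R)
    (h : SepDense X D R)
    (hcong : ∀ x ∈ X, ∀ y ∈ X, ∃ B : E ≃ₗᵢ[ℝ] E, Iso X (2 * R) x y B) (hθ : 0 ≤ θ)
    (hθd : 1228800 * (finrank ℝ E : ℝ) ^ 2 * (finrank ℝ E + 1) * θ ≤ 1)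
    {x : E} (hx : x ∈ X) {A : E ≃ₗᵢ[ℝ] E} (hA : Iso X (2 * R) x x A) (hs : Nr A θ) : A = 1 := by
  have hsc : ∀ z : E, R • (R⁻¹ • z) = z := by
    intro z
    rw [smul_smul, mul_inv_cancel₀ hR.ne', one_smul]
  have hsc' : ∀ z : E, R⁻¹ • (R • z) = z := by
    intro z
    rw [smul_smul, inv_mul_cancel₀ hR.ne', one_smul]
  refine small_trivial_one2 (X := {v | R • v ∈ X}) (D := D / R) (θ := θ) (by positivity) ?_ ?_
    hθ hθd (x := R⁻¹ • x) (by change R • (R⁻¹ • x) ∈ X; rw [hsc]; exact hx) (iso_scale hR hA) hs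
  · constructor
    · intro a ha b hb hab
      have h1 := h.sep _ ha _ hb (by
        intro h2
        apply hab
        rw [← hsc' a, ← hsc' b, h2])
      rw [← smul_sub, norm_smul, Real.norm_of_nonneg hR.le] at h1
      rw [div_le_iff₀ hR]
      linarith
    · intro q
      obtain ⟨y, hy, hyq⟩ := h.dens (R • q)
      refine ⟨R⁻¹ • y, by change R • (R⁻¹ • y) ∈ X; rw [hsc]; exact hy, ?_⟩
      have h1 : q - R⁻¹ • y = R⁻¹ • (R • q - y) := by rw [smul_sub, hsc']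
      rw [h1, norm_smul, norm_inv, Real.norm_of_nonneg hR.le, inv_mul_le_iff₀ hR, mul_one]
      exact hyq
  · intro a ha b hb
    obtain ⟨B, hB⟩ := hcong _ ha _ hb
    refine ⟨B, ?_⟩
    have := iso_scale hR hB
    rwa [hsc', hsc'] at this

/-- the group of cluster symmetries as a group of linear isometries -/
def symGroup (X : Set E) (ρ : ℝ) (x : E) : Subgroup (E ≃ₗᵢ[ℝ] E) where
  carrier := {A | Iso X ρ x x A}
  mul_mem' := by
    intro A B hA hB v hv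
    exact (hB v hv).trans (hA (B v) (by rw [LinearIsometryEquiv.norm_map]; exact hv))
  one_mem' := fun v _ => Iff.rfl
  inv_mem' := by
    intro A hA
    exact Iso.symm hA

omit [FiniteDimensional ℝ E] in
theorem mem_symGroup {X : Set E} {ρ : ℝ} {x : E} {A : E ≃ₗᵢ[ℝ] E} :
    A ∈ symGroup X ρ x ↔ Iso X ρ x x A := Iff.rfl

/-- the numerical constant -/
theorem theta_fact (d : ℕ) : 0 < (1 / (1228800 * ((d : ℝ) + 1) ^ 3)) ∧
    1228800 * (d : ℝ) ^ 2 * (d + 1) * (1 / (1228800 * ((d : ℝ) + 1) ^ 3)) ≤ 1 ∧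
    1 + 2 / (1 / (1228800 * ((d : ℝ) + 1) ^ 3)) ≤ 2457601 * ((d : ℝ) + 1) ^ 3 := by
  have hd : (0 : ℝ) ≤ d := Nat.cast_nonneg _
  refine ⟨by positivity, ?_, ?_⟩
  · rw [mul_one_div, div_le_one (by positivity)]
    nlinarith [mul_nonneg hd hd]
  · have h1 : 2 / (1 / (1228800 * ((d : ℝ) + 1) ^ 3)) = 2457600 * ((d : ℝ) + 1) ^ 3 := by
      field_simp; ring
    rw [h1]
    have h2 : (1 : ℝ) ≤ ((d : ℝ) + 1) ^ 3 := one_le_pow₀ (by linarith)
    linarith

/-- the elements of the symmetry group near the identity are trivial -/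
theorem symGroup_near {X : Set E} {D R : ℝ} (hD : 0 < D) (hR : 0 < R) (h : SepDense X D R)
    (hcong : ∀ x ∈ X, ∀ y ∈ X, ∃ B : E ≃ₗᵢ[ℝ] E, Iso X (2 * R) x y B) {x : E} (hx : x ∈ X)
    (A : E ≃ₗᵢ[ℝ] E) (hA : A ∈ symGroup X (2 * R) x)
    (hs : Nr A (1 / (1228800 * ((finrank ℝ E : ℝ) + 1) ^ 3))) : A = 1 := by
  obtain ⟨h1, h2, -⟩ := theta_fact (finrank ℝ E)
  exact small_trivial2 hD hR h hcong h1.le h2 hx hA hs

/-- the bound for finite sets of cluster symmetries -/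
theorem card_sym {X : Set E} {D R : ℝ} (hD : 0 < D) (hR : 0 < R) (h : SepDense X D R)
    (hcong : ∀ x ∈ X, ∀ y ∈ X, ∃ B : E ≃ₗᵢ[ℝ] E, Iso X (2 * R) x y B) {x : E} (hx : x ∈ X)
    (s : Finset (E ≃ₗᵢ[ℝ] E)) (hs : ∀ A ∈ s, Iso X (2 * R) x x A) :
    s.card ≤ 9 ^ (finrank ℝ E ^ 2) * (2457601 * (finrank ℝ E + 1) ^ 3) ^ finrank ℝ E := by
  obtain ⟨h1, -, h3⟩ := theta_fact (finrank ℝ E)
  have h4 := card_group nearComm_all (Pool.Agent.Helper86.DL.commDim E) (symGroup X (2 * R) x) _ h1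
    (symGroup_near hD hR h hcong hx) s hs
  have h5 : (s.card : ℝ) ≤ 9 ^ (finrank ℝ E ^ 2) *
      (2457601 * ((finrank ℝ E : ℝ) + 1) ^ 3) ^ finrank ℝ E := by
    refine h4.trans ?_
    have h6 : 0 ≤ 1 + 2 / (1 / (1228800 * ((finrank ℝ E : ℝ) + 1) ^ 3)) := by positivity
    gcongr
  exact_mod_cast h5

/-- the bound for finite sets of commuting cluster symmetries -/
theorem card_comm {X : Set E} {D R : ℝ} (hD : 0 < D) (hR : 0 < R) (h : SepDense X D R)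
    (hcong : ∀ x ∈ X, ∀ y ∈ X, ∃ B : E ≃ₗᵢ[ℝ] E, Iso X (2 * R) x y B) {x : E} (hx : x ∈ X)
    (s : Finset (E ≃ₗᵢ[ℝ] E)) (hs : ∀ A ∈ s, Iso X (2 * R) x x A)
    (hcomm : ∀ A ∈ s, ∀ B ∈ s, A * B = B * A) :
    s.card ≤ (2457601 * (finrank ℝ E + 1) ^ 3) ^ finrank ℝ E := by
  obtain ⟨h1, -, h3⟩ := theta_fact (finrank ℝ E)
  have h4 := pack_span s _ h1 (finrank ℝ E) (Submodule.span ℝ
      ((fun A : E ≃ₗᵢ[ℝ] E => (A.toContinuousLinearEquiv : E →L[ℝ] E)) '' (s : Set _)))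
      (Pool.Agent.Helper86.DL.commDim E _ hcomm)
      (fun A hA => Submodule.subset_span ⟨A, hA, rfl⟩) (by
    intro A hA B hB hne
    by_contra hcon
    push Not at hcon
    apply hne
    have h5 := symGroup_near hD hR h hcong hx (B⁻¹ * A)
      ((symGroup X (2 * R) x).mul_mem ((symGroup X (2 * R) x).inv_mem (hs B hB)) (hs A hA))
      (nr_of_norm hcon.le)
    calc A = B * (B⁻¹ * A) := by group
      _ = B := by rw [h5, mul_one])
  have h5 : (s.card : ℝ) ≤ (2457601 * ((finrank ℝ E : ℝ) + 1) ^ 3) ^ finrank ℝ E := by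
    refine h4.trans ?_
    have h6 : 0 ≤ 1 + 2 / (1 / (1228800 * ((finrank ℝ E : ℝ) + 1) ^ 3)) := by positivity
    gcongr
  exact_mod_cast h5

end Pool.Agent.Helper39.DL
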