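import Pool.Agent.Helper31.Del.Goals

/-! # Project DL: a single exponential bound for the order of 2R-cluster groups

Statements of the steps, each with its proof in the docstring. `E` is a finite dimensional real
inner product space. -/

namespace Pool.Agent.Helper39.DL

open Module MeasureTheory Metric Pool.Agent.Helper65.Delone Pool.Agent.Helper31.Del
open scoped RealInnerProductSpace ENNReal

section

variable (E : Type) [NormedAddCommGroup E] [InnerProductSpace ℝ E]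

/-- **LG** (a gap in the spectrum). Let `δ` be a positive antitone sequence and `𝒟` a finite family of
subspaces of `E`. There are `k ≤ dim E` and a subspace `V` such that the vectors of `V` are
`δ (k + 1)`-close to all `D ∈ 𝒟`, and every `u` within distance `R` of all `D ∈ 𝒟` is within
`√(card 𝒟) * R / δ k` of `V`.

PROOF. Let `S = ∑_{D ∈ 𝒟} P_{Dᗮ}` (sum of the orthogonal projections to the complements), a symmetric
operator with `⟪S v, v⟫ = ∑_D ‖P_{Dᗮ} v‖ ^ 2 ≥ 0`. Spectral theorem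
(`LinearMap.IsSymmetric.eigenvectorBasis`, `eigenvalues`): orthonormal basis `b i`, `i : Fin d`,
`S (b i) = μ i • b i`. The `d + 1` intervals `(δ (k + 1) ^ 2, δ k ^ 2]`, `k = 0, …, d`, are disjoint, so
by the pigeonhole principle one of them contains no `μ i` (otherwise choose `i k` with `μ (i k)` in the
`k`-th interval; this is injective from `Fin (d + 1)` to `Fin d`). Take this `k` and
`V = span {b i | μ i ≤ δ (k + 1) ^ 2}`; the other `μ i` are `> δ k ^ 2`.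
For `v ∈ V`: `∑_D ‖P_{Dᗮ} v‖ ^ 2 = ⟪S v, v⟫ = ∑_i μ i ⟪b i, v⟫ ^ 2 ≤ δ (k + 1) ^ 2 * ‖v‖ ^ 2`, so
`w = P_D v` has `‖v - w‖ = ‖P_{Dᗮ} v‖ ≤ δ (k + 1) * ‖v‖`.
For `u` as in the second part: `‖P_{Dᗮ} u‖ ≤ ‖u - w‖ ≤ R` for each `D`, so `⟪S u, u⟫ ≤ card 𝒟 * R ^ 2`.
Let `v = ∑_{i : μ i ≤ δ (k + 1) ^ 2} ⟪b i, u⟫ • b i ∈ V`. Then
`δ k ^ 2 * ‖u - v‖ ^ 2 = δ k ^ 2 * ∑_{μ i > δ k ^ 2} ⟪b i, u⟫ ^ 2 ≤ ∑_i μ i * ⟪b i, u⟫ ^ 2 = ⟪S u, u⟫`
(`μ i ≥ 0` for all `i` because `μ i = ⟪S (b i), b i⟫ ≥ 0`), so `‖u - v‖ ≤ √(card 𝒟) * R / δ k`. -/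
def LinGap : Prop :=
  ∀ (δ : ℕ → ℝ) (𝒟 : Finset (Submodule ℝ E)), (∀ k, 0 < δ k) → (∀ k, δ (k + 1) ≤ δ k) →
    ∃ k ≤ finrank ℝ E, ∃ V : Submodule ℝ E,
      (∀ v ∈ V, ∀ D ∈ 𝒟, ∃ w ∈ D, ‖v - w‖ ≤ δ (k + 1) * ‖v‖) ∧
      ∀ (u : E) (R : ℝ), 0 ≤ R → (∀ D ∈ 𝒟, ∃ w ∈ D, ‖u - w‖ ≤ R) →
        ∃ v ∈ V, ‖u - v‖ ≤ √(𝒟.card : ℝ) * R / δ k

/-- **NC** (close elements of a finite group commute).

PROOF. Let `C 0 = B`, `C (n + 1) = A * C n * A⁻¹ * (C n)⁻¹`, all in `G`. If `Nr (C n) c` with `c ≤ 1 / 4`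
then `Nr (C (n + 1)) (c / 2)`: `‖A C A⁻¹ C⁻¹ v - v‖ = ‖(A C - C A) w‖` with `w = A⁻¹ C⁻¹ v`,
`‖w‖ = ‖v‖`, and `(A C - C A) w = (A - 1) (C - 1) w - (C - 1) (A - 1) w` has norm
`≤ 2 * (1 / 4) * c * ‖w‖`. So `Nr (C n) (1 / 4 / 2 ^ n)` for all `n`. As `G` is finite there is `c₀ > 0`
such that `g ∈ G`, `Nr g c₀` imply `g = 1`: hence `C n = 1` for some `n`; take the least such `n`.
`n = 0`: `B = 1`. `n = 1`: `A * B * A⁻¹ * B⁻¹ = 1`, done. `n = j + 2`: `A` commutes with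
`C (j + 1) = A * C j * A⁻¹ * (C j)⁻¹` and `Nr (C j) (1 / 4)`, so `C (j + 1) = 1` by
`Pool.Agent.Helper68.Del.frob` (the Prop `Pool.Agent.Helper31.Del.Frob`), contradicting minimality. -/
def NearComm : Prop :=
  ∀ (G : Subgroup (E ≃ₗᵢ[ℝ] E)), Finite G → ∀ A ∈ G, ∀ B ∈ G, Nr A (1 / 4) → Nr B (1 / 4) →
    A * B = B * A

/-- **CD** (the span of commuting linear isometries has dimension at most `dim E`).

PROOF. Let `M` be the subgroup of `E ≃ₗᵢ[ℝ] E` generated by `𝒜`; it is commutative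
(`Subgroup.closure`, e.g. `Subgroup.isMulCommutative_closure` or `Subgroup.closure_induction₂`). Let
`𝔸` be the span in `E →L[ℝ] E` of the operators of `M`; it contains the span of `𝒜`, so it is enough to
show `dim 𝔸 ≤ dim E` (`Submodule.finrank_mono`; `E →L[ℝ] E` is finite dimensional). All elements of `𝔸`
commute with each other. For `v : E` let `Ann v = {T ∈ 𝔸 | T v = 0}`, a subspace of `𝔸`. Choose `v` with
`dim (Ann v)` minimal. CLAIM `Ann v = 0`. Let `T ∈ 𝔸`, `T v = 0`, `T ≠ 0`. Then `K = ker T` is mapped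
into itself by every `S ∈ 𝔸` (`T S k = S T k = 0`), in particular by every `A ∈ M` and by `A⁻¹`, so `Kᗮ` is
mapped into itself by every `A ∈ M` (`⟪k, A w⟫ = ⟪A⁻¹ k, w⟫ = 0`) and so by every `S ∈ 𝔸`. As `T ≠ 0`
there is `w ∈ Kᗮ`, `w ≠ 0`. For `S ∈ 𝔸`: `S (v + w) = 0` with `S v ∈ K` and `S w ∈ Kᗮ` gives `S v = 0` and
`S w = 0`. So `Ann (v + w) ≤ Ann v`, and `T ∈ Ann v`, but `T ∉ Ann (v + w)`, since otherwise `T w = 0`,
`w ∈ K ∩ Kᗮ = 0`. So `dim Ann (v + w) < dim Ann v`, contradiction. Hence `T ↦ T v` is an injective linear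
map from `𝔸` to `E` and `dim 𝔸 ≤ dim E`. -/
def CommDim : Prop :=
  ∀ (𝒜 : Set (E ≃ₗᵢ[ℝ] E)), (∀ A ∈ 𝒜, ∀ B ∈ 𝒜, A * B = B * A) →
    finrank ℝ (Submodule.span ℝ
      ((fun A : E ≃ₗᵢ[ℝ] E => (A.toContinuousLinearEquiv : E →L[ℝ] E)) '' 𝒜)) ≤ finrank ℝ E

/-- **TT** (the topological theorem with two fields). -/
def Topo2 : Prop :=
  ∀ (X : Set E) (m η K C₀ : ℝ) (W Wc : E → AffineSubspace ℝ E), 0 < m → SepDense X m 1 →
    0 < η → η ≤ 1 / 16 → 4 * √η ≤ K → 0 ≤ C₀ →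
    (∀ x ∈ X, finrank ℝ (W x).direction + 2 ≤ finrank ℝ E) →
    (∀ x ∈ X, Wc x ≤ W x) →
    (∀ x ∈ X, ∃ p ∈ Wc x, ‖p - x‖ ≤ C₀) →
    (∀ x ∈ X, ∀ y ∈ X, ‖x - y‖ ≤ K → Wc x = Wc y) →
    (∀ z ∈ X, ∃ f : E, ‖f - z‖ ≤ C₀ ∧ ∀ x ∈ X, ‖x - z‖ ≤ 2 - η → f ∈ W x) → False

/-- **L2** (the two fields). -/
def Levels2 : Prop :=
  ∀ (X : Set E) (m θ : ℝ), 0 < m → SepDense X m 1 →
    (∀ x ∈ X, ∀ y ∈ X, ∃ B : E ≃ₗᵢ[ℝ] E, Iso X 2 x y B) → 0 ≤ θ →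
    (1228800 * (finrank ℝ E : ℝ) ^ 2 * (finrank ℝ E + 1) * θ ≤ 1) →
    (∀ x ∈ X, ∃ A ∈ Sym X θ 2 x, A ≠ 1) →
    ∃ (η K C₀ : ℝ) (W Wc : E → AffineSubspace ℝ E), 0 < η ∧ η ≤ 1 / 16 ∧ 4 * √η ≤ K ∧ 0 ≤ C₀ ∧
      (∀ x ∈ X, finrank ℝ (W x).direction + 2 ≤ finrank ℝ E) ∧
      (∀ x ∈ X, Wc x ≤ W x) ∧
      (∀ x ∈ X, ∃ p ∈ Wc x, ‖p - x‖ ≤ C₀) ∧
      (∀ x ∈ X, ∀ y ∈ X, ‖x - y‖ ≤ K → Wc x = Wc y) ∧
      ∀ z ∈ X, ∃ f : E, ‖f - z‖ ≤ C₀ ∧ ∀ x ∈ X, ‖x - z‖ ≤ 2 - η → f ∈ W x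

end

section

variable (E : Type) [NormedAddCommGroup E] [InnerProductSpace ℝ E] [FiniteDimensional ℝ E]
  [MeasurableSpace E] [BorelSpace E]

/-- **SL** (volume of a slab inside a ball).

PROOF. If `H` is empty the set is empty. Otherwise there is a unit vector `e` orthogonal to
`H.direction` (its orthogonal complement is not `0` by dimension), and `⟪e, h⟫ = c` for all `h ∈ H`. Extend
`e` to an orthonormal basis `b` of `E` indexed by `Fin d` with `b i₀ = e`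
(`Orthonormal.exists_orthonormalBasis_extension_of_card_eq`). For `p` in the set and every `i`:
`|⟪b i, p⟫ - ⟪b i, z⟫| ≤ C`, and `|⟪b i₀, p⟫ - c| ≤ τ`. So the set is contained in the preimage under the
volume preserving map `b.repr` (`OrthonormalBasis.volume_preserving_repr`, composed with
`EuclideanSpace.volume_preserving_ofLp` or its present name) of a box with one side of length `2 * τ` and
`d - 1` sides of length `2 * C`; `Real.volume_Icc_pi` or `Real.volume_pi_le_prod_diam`-type lemmas. -/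
def SlabVol : Prop :=
  ∀ (H : AffineSubspace ℝ E) (z : E) (C τ : ℝ), finrank ℝ H.direction < finrank ℝ E → 0 ≤ C →
    0 ≤ τ →
    volume {p : E | ‖p - z‖ ≤ C ∧ ∃ h ∈ H, ‖p - h‖ ≤ τ} ≤
      ENNReal.ofReal (2 * τ * (2 * C) ^ (finrank ℝ E - 1))

/-- **CM** (counting).

PROOF. Let `d = dim E`, `v₁` the volume of the unit ball. Let `L = C + m / 2 > 0` and
`X' = {x ∈ X | ‖x‖ ≤ L + C}`. The balls `ball x (m / 2)`, `x ∈ X'`, are disjoint and contained in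
`ball 0 (L + C + m / 2)` up to the boundary, say in `ball 0 (L + C + m)`; use instead
`closedBall 0 (2 * L)` (`L + C + m / 2 = 2 * L`), so `X'` is finite and
`#X' * (m / 2) ^ d * v₁ ≤ (2 * L) ^ d * v₁` (`Measure.addHaar_ball`, `Measure.addHaar_closedBall`).
On the other hand `ball 0 L ⊆ ⋃_{x ∈ X'} B x` by the last hypothesis, so `L ^ d * v₁ ≤ #X' * ε`.
Multiplying, `L ^ d * v₁ * (m / 2) ^ d ≤ (2 * L) ^ d * ε`, that is `(m / 4) ^ d * v₁ ≤ ε`. (The packing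
lemma `Pool.Agent.Helper31.Del.packing_gen` does the disjoint balls; it may be easier to redo it. In
dimension `0` the statement is also true with the same proof.) -/
def CountVol : Prop :=
  ∀ (X : Set E) (m C ε : ℝ) (B : E → Set E), 0 < m → 0 ≤ C → 0 ≤ ε →
    (∀ x ∈ X, ∀ y ∈ X, x ≠ y → m ≤ ‖x - y‖) →
    (∀ z ∈ X, volume (B z) ≤ ENNReal.ofReal ε) →
    (∀ p : E, ∃ z ∈ X, ‖z - p‖ ≤ C ∧ p ∈ B z) →
    volume (ball (0 : E) (m / 4)) ≤ ENNReal.ofReal ε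

end

end Pool.Agent.Helper39.DL
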