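import Pool.Agent.Helper31.Del.Final

namespace Pool.Agent.Helper39.DL.OldAllDimensions

open Pool.Agent.Helper65.Delone

/-- In every dimension `d` the symmetry group of the `2R`-clusters of a Delaunay set of type
`(r, R)` with mutually congruent `2R`-clusters is finite of order at most
`4000 ^ (d ^ 2 * 2 ^ d)`. -/
theorem result (d : ℕ) (X : Set (EuclideanSpace ℝ (Fin d))) (r R : ℝ) (h : IsDelaunay X r R)
    (hc : MutuallyCongruent X (2 * R)) (x : EuclideanSpace ℝ (Fin d)) (hx : x ∈ X) :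
    Finite (clusterGroup X x (2 * R)) ∧
      Nat.card (clusterGroup X x (2 * R)) ≤ 4000 ^ (d ^ 2 * 2 ^ d) := by
  classical
  have hd0 : (0 : ℝ) < d + 1 := by positivity
  have hR : 0 < R := h.r_pos.trans_le h.r_le
  have hD : 0 < 2 * r := by linarith [h.r_pos]
  obtain ⟨θ, hθdef⟩ : ∃ θ : ℝ, θ = 5 / (2 * (d + 1)) / 4000 ^ (2 ^ (d - 1)) := ⟨_, rfl⟩
  have hθ0 : 0 < θ := by rw [hθdef]; positivity
  have hθeq : 400 * (d + 1) * θ = 1000 * (4000 : ℝ)⁻¹ ^ (2 ^ (d - 1)) := by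
    rw [hθdef, inv_pow]; field_simp; norm_num
  have hfr : Module.finrank ℝ (EuclideanSpace ℝ (Fin d)) = d := by simp
  have hθle : 400 * (Module.finrank ℝ (EuclideanSpace ℝ (Fin d)) + 1) * θ ≤
      1000 * (4000 : ℝ)⁻¹ ^ (2 ^ (Module.finrank ℝ (EuclideanSpace ℝ (Fin d)) - 1)) := by
    rw [hfr]; exact hθeq.le
  apply finite_of_bound
  intro s
  have hinj : Function.Injective (fun g : clusterGroup X x (2 * R) => lin g.1 x x g.2.1) := by
    intro a b hab
    exact Subtype.ext (lin_injective a.2.1 b.2.1 hab)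
  have h2 := Pool.Agent.Helper31.Del.card_le_gen hD hR h.sepDense hc.iso hθ0 hθle hx
    (s.image (fun g : clusterGroup X x (2 * R) => lin g.1 x x g.2.1)) ?_
  · rw [Finset.card_image_of_injective _ hinj, hfr] at h2
    have h3 := Pool.Agent.Helper31.Del.numeric d hθeq
    have h4 : (s.card : ℝ) ≤ (4000 : ℝ) ^ (d ^ 2 * 2 ^ d) := by
      calc (s.card : ℝ) ≤ (1 + 2 / θ) ^ (d ^ 2) := h2
        _ ≤ ((4000 : ℝ) ^ (2 ^ d)) ^ (d ^ 2) := by
            apply pow_le_pow_left₀ (by positivity) h3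
        _ = (4000 : ℝ) ^ (d ^ 2 * 2 ^ d) := by rw [← pow_mul]; congr 1; ring
    exact_mod_cast h4
  · intro A hA
    rw [Finset.mem_image] at hA
    obtain ⟨g, -, rfl⟩ := hA
    exact lin_iso g.2.1 g.2.2

end Pool.Agent.Helper39.DL.OldAllDimensions
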