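import Pool.Agent.Helper65.Delone.Conv

/-! Definitions for the statement of the single exponential bound. -/

namespace Pool.Agent.Helper39.DL

variable {d : ℕ}

/-- every commutative subgroup of `G` has order at most `N` -/
def CommutativeSubgroupsLE
    (G : Subgroup (EuclideanSpace ℝ (Fin d) ≃ᵢ EuclideanSpace ℝ (Fin d))) (N : ℕ) : Prop :=
  ∀ H ≤ G, (∀ a ∈ H, ∀ b ∈ H, a * b = b * a) → Nat.card H ≤ N

/-- only the identity of `G` moves every point `y` by at most `c * |y - x|` -/
def NoSmallElement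
    (G : Subgroup (EuclideanSpace ℝ (Fin d) ≃ᵢ EuclideanSpace ℝ (Fin d)))
    (x : EuclideanSpace ℝ (Fin d)) (c : ℝ) : Prop :=
  ∀ g ∈ G, (∀ y, dist (g y) y ≤ c * dist y x) → g = 1

end Pool.Agent.Helper39.DL
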