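import Pool.Agent.Helper39.DL.Goals
import Pool.Agent.Helper31.Del.Final

/-! The topological theorem with two fields. -/

namespace Pool.Agent.Helper39.DL

open Module MeasureTheory Metric Pool.Agent.Helper65.Delone Pool.Agent.Helper31.Del
open scoped RealInnerProductSpace ENNReal

variable {E : Type} [NormedAddCommGroup E] [InnerProductSpace ℝ E]

/-- balls of radius three contain a bounded number of points -/
theorem unifBound [FiniteDimensional ℝ E] {X : Set E} {m : ℝ} (hm : 0 < m)
    (hsep : ∀ x ∈ X, ∀ y ∈ X, x ≠ y → m ≤ ‖x - y‖) :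
    ∃ M : ℕ, ∀ z : E, ∀ s : Finset E, (∀ x ∈ s, x ∈ X ∧ ‖x - z‖ ≤ 3) → s.card ≤ M := by
  classical
  refine ⟨⌈(1 + 2 / (m / 3)) ^ finrank ℝ E⌉₊, fun z s hs => ?_⟩
  have hinj : Function.Injective (fun x : E => (3 : ℝ)⁻¹ • (x - z)) := by
    intro a b hab
    have h1 : a - z = b - z := smul_right_injective E (by norm_num : (3 : ℝ)⁻¹ ≠ 0) hab
    exact sub_left_injective h1
  have h1 := packing_gen (s.image (fun x : E => (3 : ℝ)⁻¹ • (x - z))) (m / 3) (by positivity)
    (by
      intro c hc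
      obtain ⟨x, hx, rfl⟩ := Finset.mem_image.1 hc
      rw [norm_smul, norm_inv, Real.norm_of_nonneg (by norm_num)]
      have := (hs x hx).2
      linarith)
    (by
      intro c hc e he hne
      obtain ⟨x, hx, rfl⟩ := Finset.mem_image.1 hc
      obtain ⟨y, hy, rfl⟩ := Finset.mem_image.1 he
      have hxy : x ≠ y := fun h => hne (by rw [h])
      have h2 := hsep x (hs x hx).1 y (hs y hy).1 hxy
      rw [← smul_sub, norm_smul, norm_inv, Real.norm_of_nonneg (by norm_num)]
      have h3 : x - z - (y - z) = x - y := by abel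
      rw [h3]
      linarith)
  rw [Finset.card_image_of_injective _ hinj] at h1
  exact_mod_cast h1.trans (Nat.le_ceil _)

theorem finNear [FiniteDimensional ℝ E] {X : Set E} {m : ℝ} (hm : 0 < m)
    (hsep : ∀ x ∈ X, ∀ y ∈ X, x ≠ y → m ≤ ‖x - y‖) (z : E) :
    {x | x ∈ X ∧ ‖x - z‖ ≤ 3}.Finite := by
  obtain ⟨M, hM⟩ := unifBound hm hsep
  by_contra hinf
  obtain ⟨t, ht1, ht2⟩ := Set.Infinite.exists_subset_card_eq hinf (M + 1)
  have := hM z t (fun x hx => ht1 hx)
  omega

/-- the parallelogram estimate -/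
theorem para2 {q a b c : E} {η r : ℝ} (hη : 0 < η) (hη1 : η ≤ 1 / 16) (hr : 0 < r)
    (hr1 : 16 * r + 20 * r ^ 2 ≤ η ^ 2)
    (ha : ‖a - q‖ ≤ 1 + 3 * r) (hb : ‖b - q‖ ≤ 1 + r) (hc : ‖c - q‖ ≤ 1 + r)
    (h1 : 2 - η < ‖a - b‖) (h2 : 2 - η < ‖b - c‖) : ‖a - c‖ ≤ 4 * √η := by
  have key : ∀ u : E, ‖u - q‖ ≤ 1 + 3 * r → 2 - η < ‖u - b‖ →
      ‖(u - q) + (b - q)‖ ≤ 2 * √η := by
    intro u hu hub
    have hp := parallelogram_law_with_norm ℝ (u - q) (b - q)
    have e : (u - q) - (b - q) = u - b := by abel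
    rw [e] at hp
    have a1 : ‖u - q‖ * ‖u - q‖ ≤ (1 + 3 * r) * (1 + 3 * r) :=
      mul_self_le_mul_self (norm_nonneg _) hu
    have a2 : ‖b - q‖ * ‖b - q‖ ≤ (1 + r) * (1 + r) :=
      mul_self_le_mul_self (norm_nonneg _) hb
    have a3 : (2 - η) * (2 - η) ≤ ‖u - b‖ * ‖u - b‖ :=
      mul_self_le_mul_self (by linarith) hub.le
    have h4 : √η * √η = η := Real.mul_self_sqrt hη.le
    apply abs_le_of_sq_le_sq' _ (by positivity) |>.2
    nlinarith
  have k1 := key a ha h1
  have k2 := key c (by linarith) (by rw [norm_sub_rev]; exact h2)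
  have e : a - c = ((a - q) + (b - q)) - ((c - q) + (b - q)) := by abel
  rw [e]
  calc _ ≤ ‖(a - q) + (b - q)‖ + ‖(c - q) + (b - q)‖ := norm_sub_le _ _
    _ ≤ 4 * √η := by linarith

/-- a fast decreasing sequence -/
theorem exSeq (g : ℝ → ℝ) (hg : ∀ t, 0 < t → 0 < g t) :
    ∃ δ : ℕ → ℝ, (∀ k, 0 < δ k) ∧ (∀ k, δ (k + 1) ≤ δ k) ∧ ∀ k, δ (k + 1) ≤ g (δ k) := by
  refine ⟨fun k => (fun t => min t (g t))^[k] 1, ?_, ?_, ?_⟩
  · intro k
    induction k with
    | zero => simp
    | succ k ih =>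
      beta_reduce at ih ⊢
      rw [Function.iterate_succ_apply']
      exact lt_min ih (hg _ ih)
  · intro k
    beta_reduce
    rw [Function.iterate_succ_apply']
    exact min_le_left _ _
  · intro k
    beta_reduce
    rw [Function.iterate_succ_apply']
    exact min_le_right _ _

/-- closed neighbourhoods of affine subspaces are convex -/
theorem convex_nbhd (H : AffineSubspace ℝ E) (τ : ℝ) :
    Convex ℝ {p : E | ∃ h ∈ H, ‖p - h‖ ≤ τ} := by
  rintro p ⟨h, hh, hp⟩ q ⟨k, hk, hq⟩ a b ha hb hab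
  refine ⟨a • h + b • k, H.convex hh hk ha hb hab, ?_⟩
  have e : a • p + b • q - (a • h + b • k) = a • (p - h) + b • (q - k) := by
    rw [smul_sub, smul_sub]; abel
  rw [e]
  calc _ ≤ ‖a • (p - h)‖ + ‖b • (q - k)‖ := norm_add_le _ _
    _ = a * ‖p - h‖ + b * ‖q - k‖ := by
      rw [norm_smul, norm_smul, Real.norm_of_nonneg ha, Real.norm_of_nonneg hb]
    _ ≤ a * τ + b * τ := by gcongr
    _ = τ := by rw [← add_mul, hab, one_mul]

theorem topo2 [FiniteDimensional ℝ E] [MeasurableSpace E] [BorelSpace E] (hCS : CoverSurj E)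
    (hLG : LinGap E) (hSL : SlabVol E) (hCM : CountVol E) : Topo2 E := by
  intro X m η K C₀ W Wc hm hX hη hη16 hK hC₀ hdim hle hpt hloc hf
  classical
  obtain ⟨x₀, hx₀, -⟩ := hX.dens 0
  obtain ⟨d, hd⟩ : ∃ d, d = finrank ℝ E := ⟨_, rfl⟩
  rw [← hd] at hdim
  obtain ⟨M, hM⟩ := unifBound hm hX.sep
  have hfin := finNear hm hX.sep
  obtain ⟨r, hr, hr3, hr1⟩ : ∃ r : ℝ, 0 < r ∧ r ≤ 1 / 3 ∧ 16 * r + 20 * r ^ 2 ≤ η ^ 2 := by
    refine ⟨η ^ 2 / 36, by positivity, by nlinarith, ?_⟩
    have h1 : η ^ 2 / 36 ≤ 1 := by nlinarith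
    have h2 : 0 ≤ η ^ 2 / 36 := by positivity
    nlinarith
  -- the data at a point
  let N : E → Set E := fun q => {z | z ∈ X ∧ ‖z - q‖ ≤ 1 + r}
  let Bad : E → Prop := fun q => ∀ x ∈ X, ∃ z ∈ N q, 2 - η < ‖x - z‖
  let Fm : E → Set (AffineSubspace ℝ E) := fun q => Wc '' (N q)
  have hN : ∀ q, N q ⊆ {x | x ∈ X ∧ ‖x - q‖ ≤ 3} := fun q x hx => ⟨hx.1, by linarith [hx.2]⟩
  have tri : ∀ a b c : E, ‖a - c‖ ≤ ‖a - b‖ + ‖b - c‖ := fun a b c => norm_sub_le_norm_sub_add_norm_sub a b c
  have hsub : ∀ q₀ q₁, Bad q₁ → ‖q₀ - q₁‖ ≤ 2 * r → Fm q₀ ⊆ Fm q₁ := by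
    rintro q₀ q₁ hb hq _ ⟨z, ⟨hz, hzq⟩, rfl⟩
    obtain ⟨z₁, ⟨hz₁, hz₁q⟩, h1⟩ := hb z hz
    obtain ⟨z₂, ⟨hz₂, hz₂q⟩, h2⟩ := hb z₁ hz₁
    refine ⟨z₂, ⟨hz₂, hz₂q⟩, ?_⟩
    refine (hloc z hz z₂ hz₂ ?_).symm
    refine (para2 hη hη16 hr hr1 ?_ hz₁q hz₂q h1 h2).trans hK
    have := tri z q₀ q₁
    linarith
  have heqF : ∀ q₀ q₁, Bad q₀ → Bad q₁ → ‖q₀ - q₁‖ ≤ 2 * r → Fm q₀ = Fm q₁ := fun q₀ q₁ h0 h1 h =>
    Set.Subset.antisymm (hsub q₀ q₁ h1 h) (hsub q₁ q₀ h0 (by rw [norm_sub_rev]; exact h))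
  have hgood : ∀ q, ¬ Bad q → ∃ x ∈ X, ∀ z ∈ N q, ‖x - z‖ ≤ 2 - η := by
    intro q hq
    by_contra hcon
    apply hq
    intro x hx
    by_contra h2
    apply hcon
    refine ⟨x, hx, fun z hz => ?_⟩
    by_contra h3
    exact h2 ⟨z, hz, not_le.1 h3⟩
  choose! g hg1 hg2 using hgood
  choose! f hf1 hf2 using hf
  -- constants
  obtain ⟨A, hA⟩ : ∃ A : ℝ, A = √(M : ℝ) * (2 * C₀ + 3) := ⟨_, rfl⟩
  have hA0 : 0 ≤ A := by rw [hA]; positivity
  have hv0 : 0 < volume (ball (0 : E) (m / 4)) := measure_ball_pos volume 0 (by positivity)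
  have hv1 : volume (ball (0 : E) (m / 4)) < ⊤ := measure_ball_lt_top
  obtain ⟨v, hv⟩ : ∃ v : ℝ, v = (volume (ball (0 : E) (m / 4))).toReal := ⟨_, rfl⟩
  have hvpos : 0 < v := by rw [hv]; exact ENNReal.toReal_pos hv0.ne' hv1.ne
  obtain ⟨ε, hε⟩ : ∃ ε : ℝ, ε = v / 2 ^ (M + 1) := ⟨_, rfl⟩
  have hε0 : 0 < ε := by rw [hε]; positivity
  obtain ⟨δ, hδ0, hδ1, hδ2⟩ := exSeq
    (fun t => ε / (2 * (2 * (C₀ + 5 + A / t)) ^ (d - 1))) (by
      intro t ht
      positivity)
  have hδanti : ∀ k, k ≤ d → δ d ≤ δ k := fun k hk => antitone_nat_of_succ_le hδ1 hk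
  have hδ3 : ∀ k, 2 * δ (k + 1) * (2 * (C₀ + 5 + A / δ k)) ^ (d - 1) ≤ ε := by
    intro k
    have h1 := hδ2 k
    beta_reduce at h1
    have h2 : 0 < 2 * (2 * (C₀ + 5 + A / δ k)) ^ (d - 1) := by
      have := hδ0 k
      positivity
    rw [le_div_iff₀ h2] at h1
    linarith
  -- the subspaces
  have hV : ∀ S : Set (AffineSubspace ℝ E), (∃ q, Bad q ∧ Fm q = S) →
      ∃ (k : ℕ) (V : Submodule ℝ E) (q' : E), k ≤ d ∧
        (∀ v ∈ V, ∀ H ∈ S, ∃ w ∈ H.direction, ‖v - w‖ ≤ δ (k + 1) * ‖v‖) ∧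
        ∀ q, Fm q = S → ∀ p, ‖p - q‖ ≤ r →
          ‖(p - q') - V.starProjection (p - q')‖ ≤ A / δ k := by
    rintro S ⟨q', hbad, rfl⟩
    have hNf : (N q').Finite := (hfin q').subset (hN q')
    obtain ⟨k, hk, V, h1, h2⟩ := hLG δ (hNf.toFinset.image (fun z => (Wc z).direction)) hδ0 hδ1
    refine ⟨k, V, q', hd ▸ hk, ?_, ?_⟩
    · rintro v hv _ ⟨z, hz, rfl⟩
      exact h1 v hv _ (Finset.mem_image.2 ⟨z, (Set.Finite.mem_toFinset _).2 hz, rfl⟩)
    · intro q hq p hp
      obtain ⟨w, hw, hw2⟩ := h2 (p - q') (2 * C₀ + 3) (by linarith) (by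
        intro D hD
        obtain ⟨z', hz', rfl⟩ := Finset.mem_image.1 hD
        rw [Set.Finite.mem_toFinset] at hz'
        have hmem : Wc z' ∈ Fm q := by rw [hq]; exact ⟨z', hz', rfl⟩
        obtain ⟨z, hz, hzz⟩ := hmem
        obtain ⟨p₁, hp₁, hp₁n⟩ := hpt z' hz'.1
        obtain ⟨p₂, hp₂, hp₂n⟩ := hpt z hz.1
        refine ⟨p₂ - p₁, ?_, ?_⟩
        · have hp₂' : p₂ ∈ Wc z' := by rw [← hzz]; exact hp₂
          exact AffineSubspace.vsub_mem_direction hp₂' hp₁
        · have e : p - q' - (p₂ - p₁) = (p - p₂) + (p₁ - q') := by abel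
          rw [e]
          have t1 := norm_add_le (p - p₂) (p₁ - q')
          have t2 := tri p q p₂
          have t3 := tri q z p₂
          have t4 := tri p₁ z' q'
          have t5 := hz.2
          have t6 := hz'.2
          rw [norm_sub_rev z q] at t5
          rw [norm_sub_rev p₂ z] at hp₂n
          linarith)
      have h3 : ‖(p - q') - V.starProjection (p - q')‖ ≤ ‖(p - q') - w‖ := by
        rw [Submodule.starProjection_minimal]
        exact ciInf_le ⟨0, by rintro _ ⟨y, rfl⟩; exact norm_nonneg _⟩ (⟨w, hw⟩ : V)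
      refine h3.trans (hw2.trans ?_)
      rw [hA]
      have h4 : ((hNf.toFinset.image (fun z => (Wc z).direction)).card : ℝ) ≤ M := by
        have h5 : (hNf.toFinset.image (fun z => (Wc z).direction)).card ≤ hNf.toFinset.card :=
          Finset.card_image_le
        have h6 : hNf.toFinset.card ≤ M := hM q' _ (fun x hx => by
          rw [Set.Finite.mem_toFinset] at hx
          exact hN q' hx)
        exact_mod_cast h5.trans h6
      have h7 := hδ0 k
      gcongr
  choose! kk VV qq hkd hP1 hP2 using hV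
  let F : Set (AffineSubspace ℝ E) → E → E := fun S p =>
    qq S + (VV S).starProjection (p - qq S)
  let h : E → E → E := fun q₀ q => if Bad q₀ then F (Fm q₀) q else f (g q₀)
  let Hs : E → Set (AffineSubspace ℝ E) → AffineSubspace ℝ E := fun z S =>
    affineSpan ℝ (insert (F S z) (W z : Set E))
  let slab : E → Set (AffineSubspace ℝ E) → Set E := fun z S =>
    {p | ‖p - z‖ ≤ C₀ + 5 + A / δ (kk S) ∧ ∃ y ∈ Hs z S, ‖p - y‖ ≤ δ (kk S + 1)}
  let Rl : E → Finset (Set (AffineSubspace ℝ E)) := fun z =>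
    (hfin z).toFinset.powerset.image (fun T : Finset E => Wc '' (T : Set E))
  let B : E → Set E := fun z => (W z : Set E) ∪ ⋃ S ∈ Rl z, slab z S
  -- nonemptiness of W z
  have hWne : ∀ z ∈ X, ∃ p, p ∈ W z := by
    intro z hz
    obtain ⟨p, hp, -⟩ := hpt z hz
    exact ⟨p, hle z hz hp⟩
  have hHs : ∀ z ∈ X, ∀ S, finrank ℝ (Hs z S).direction < finrank ℝ E := by
    intro z hz S
    obtain ⟨p, hp⟩ := hWne z hz
    have h1 : (Hs z S).direction = (ℝ ∙ (F S z -ᵥ p)) ⊔ (W z).direction :=
      AffineSubspace.direction_affineSpan_insert hp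
    rw [h1]
    have h2 := Submodule.finrank_add_le_finrank_add_finrank (ℝ ∙ (F S z -ᵥ p)) (W z).direction
    have h3 := finrank_span_le_card (R := ℝ) ({F S z -ᵥ p} : Set E)
    simp only [Set.toFinset_singleton, Finset.card_singleton] at h3
    have h4 := hdim z hz
    omega
  have hWle : ∀ z S, W z ≤ Hs z S := by
    intro z S p hp
    exact subset_affineSpan ℝ _ (Set.mem_insert_of_mem _ hp)
  -- the volume of B z
  have hBvol : ∀ z ∈ X, volume (B z) ≤ ENNReal.ofReal (2 ^ M * ε) := by
    intro z hz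
    have hW0 : volume (W z : Set E) = 0 := by
      apply Measure.addHaar_affineSubspace
      intro htop
      have h1 := hdim z hz
      rw [htop, AffineSubspace.direction_top, finrank_top] at h1
      omega
    have hsl : ∀ S, volume (slab z S) ≤ ENNReal.ofReal ε := by
      intro S
      have h0 := hδ0 (kk S)
      refine (hSL (Hs z S) z (C₀ + 5 + A / δ (kk S)) (δ (kk S + 1)) (hHs z hz S) (by positivity)
        (hδ0 _).le).trans ?_
      rw [← hd]
      exact ENNReal.ofReal_le_ofReal (hδ3 _)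
    have hcard : (Rl z).card ≤ 2 ^ M := by
      have h1 : (Rl z).card ≤ (hfin z).toFinset.powerset.card := Finset.card_image_le
      rw [Finset.card_powerset] at h1
      have h2 : (hfin z).toFinset.card ≤ M := hM z _ (fun x hx => by
        rw [Set.Finite.mem_toFinset] at hx
        exact hx)
      exact h1.trans (Nat.pow_le_pow_right (by norm_num) h2)
    calc volume (B z) ≤ volume (W z : Set E) + volume (⋃ S ∈ Rl z, slab z S) :=
          measure_union_le _ _
      _ = volume (⋃ S ∈ Rl z, slab z S) := by rw [hW0, zero_add]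
      _ ≤ ∑ S ∈ Rl z, volume (slab z S) := measure_biUnion_finset_le _ _
      _ ≤ ∑ _S ∈ Rl z, ENNReal.ofReal ε := Finset.sum_le_sum (fun S _ => hsl S)
      _ = (Rl z).card * ENNReal.ofReal ε := by rw [Finset.sum_const, nsmul_eq_mul]
      _ ≤ (2 ^ M : ℕ) * ENNReal.ofReal ε := by gcongr
      _ = ENNReal.ofReal (2 ^ M * ε) := by
        rw [ENNReal.ofReal_mul (by positivity)]
        congr 1
        rw [← ENNReal.ofReal_natCast]
        push_cast
        rfl
  -- facts about the values
  have hnear : ∀ q₀ q z, q ∈ ball q₀ r → z ∈ X → ‖q - z‖ ≤ 1 → z ∈ N q₀ := by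
    intro q₀ q z hq hz hzq
    rw [mem_ball, dist_eq_norm] at hq
    refine ⟨hz, ?_⟩
    have := tri z q q₀
    rw [norm_sub_rev z q] at this
    linarith
  have hgv : ∀ q₀ q z, q ∈ ball q₀ r → z ∈ X → ‖q - z‖ ≤ 1 → ¬ Bad q₀ →
      f (g q₀) ∈ W z ∧ ‖f (g q₀) - q‖ ≤ C₀ + 4 := by
    intro q₀ q z hq hz hzq hb
    have h1 := hg2 q₀ hb z (hnear q₀ q z hq hz hzq)
    have h2 := hg1 q₀ hb
    refine ⟨hf2 (g q₀) h2 z hz (by rw [norm_sub_rev]; exact h1), ?_⟩
    have h3 := hf1 (g q₀) h2
    have h4 := tri (f (g q₀)) (g q₀) q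
    have h5 := tri (g q₀) z q
    rw [norm_sub_rev z q] at h5
    linarith
  have hbv : ∀ q₀ q, q ∈ ball q₀ r → Bad q₀ →
      ‖F (Fm q₀) q - q‖ ≤ A / δ (kk (Fm q₀)) := by
    intro q₀ q hq hb
    rw [mem_ball, dist_eq_norm] at hq
    have h1 := hP2 (Fm q₀) ⟨q₀, hb, rfl⟩ q₀ rfl q hq.le
    have e : F (Fm q₀) q - q = -((q - qq (Fm q₀)) -
        (VV (Fm q₀)).starProjection (q - qq (Fm q₀))) := by
      change qq (Fm q₀) + _ - q = _
      abel
    rw [e, norm_neg]
    exact h1
  have hAd : ∀ S, kk S ≤ d → A / δ (kk S) ≤ A / δ d := by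
    intro S hS
    have h1 := hδ0 d
    have h2 := hδanti _ hS
    gcongr
  -- the covering argument
  have hZ : {y : E | ∃ z ∈ X, ‖z - y‖ ≤ C₀ + 5 + A / δ d ∧ y ∈ B z} = Set.univ := by
    refine hCS E (fun q₀ => ball q₀ r) h (C₀ + 4 + A / δ d) _ (fun _ => isOpen_ball)
      (fun q => ⟨q, mem_ball_self hr⟩) ?_ ?_ ?_
    · intro j
      by_cases hb : Bad j
      · have e : h j = fun q => F (Fm j) q := by
          funext q
          change (if Bad j then F (Fm j) q else f (g j)) = _
          rw [if_pos hb]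
        rw [e]
        apply Continuous.continuousOn
        change Continuous (fun q => qq (Fm j) + (VV (Fm j)).starProjection (q - qq (Fm j)))
        fun_prop
      · have e : h j = fun q => f (g j) := by
          funext q
          change (if Bad j then F (Fm j) q else f (g j)) = _
          rw [if_neg hb]
        rw [e]
        exact continuousOn_const
    · intro j q hq
      have hAd0 : 0 ≤ A / δ d := by
        have := hδ0 d
        positivity
      change ‖(if Bad j then F (Fm j) q else f (g j)) - q‖ ≤ _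
      by_cases hb : Bad j
      · rw [if_pos hb]
        have h1 := hbv j q hq hb
        have h2 := hAd (Fm j) (hkd (Fm j) ⟨j, hb, rfl⟩)
        linarith
      · rw [if_neg hb]
        obtain ⟨z, hz, hzq⟩ := hX.dens q
        have := (hgv j q z hq hz hzq hb).2
        linarith
    · intro q
      obtain ⟨z, hz, hzq⟩ := hX.dens q
      by_cases hcase : ∃ j, Bad j ∧ q ∈ ball j r
      · obtain ⟨j, hbj, hqj⟩ := hcase
        have hzj : z ∈ N j := hnear j q z hqj hz hzq
        have hSR : Fm j ∈ Rl z := by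
          refine Finset.mem_image.2 ⟨((hfin z).toFinset.filter (fun x => x ∈ N j)), ?_, ?_⟩
          · exact Finset.mem_powerset.2 (Finset.filter_subset _ _)
          · change Wc '' _ = Wc '' (N j)
            congr 1
            ext x
            simp only [Finset.coe_filter, Set.Finite.mem_toFinset, Set.mem_ofPred_eq]
            constructor
            · intro hx; exact hx.2
            · intro hx
              refine ⟨⟨hx.1, ?_⟩, hx⟩
              have h1 := tri x j z
              have h2 := hx.2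
              have h3 := hzj.2
              rw [norm_sub_rev z j] at h3
              linarith
        have hT : Convex ℝ (slab z (Fm j)) := by
          have e : slab z (Fm j) = closedBall z (C₀ + 5 + A / δ (kk (Fm j))) ∩
              {p | ∃ y ∈ Hs z (Fm j), ‖p - y‖ ≤ δ (kk (Fm j) + 1)} := by
            ext p
            change _ ∧ _ ↔ _ ∧ _
            rw [mem_closedBall, dist_eq_norm]
            exact Iff.rfl
          rw [e]
          exact (convex_closedBall _ _).inter (convex_nbhd _ _)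
        have hsubT : {y | ∃ i, q ∈ ball i r ∧ y = h i q} ⊆ slab z (Fm j) := by
          rintro y ⟨i, hqi, rfl⟩
          change (if Bad i then F (Fm i) q else f (g i)) ∈ _
          by_cases hb : Bad i
          · rw [if_pos hb]
            have hij : Fm i = Fm j := by
              apply heqF i j hb hbj
              rw [mem_ball, dist_eq_norm] at hqi hqj
              have := tri i q j
              rw [norm_sub_rev i q] at this
              linarith
            rw [hij]
            constructor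
            · have h1 := hbv j q hqj hbj
              have h2 := tri (F (Fm j) q) q z
              linarith
            · have h1 : (VV (Fm j)).starProjection (q - z) ∈ VV (Fm j) :=
                Submodule.starProjection_apply_mem _ _
              obtain ⟨w, hw, hw2⟩ := hP1 (Fm j) ⟨j, hbj, rfl⟩ _ h1 (Wc z) ⟨z, hzj, rfl⟩
              have hw3 : w ∈ (Hs z (Fm j)).direction :=
                AffineSubspace.direction_le ((hle z hz).trans (hWle z (Fm j))) hw
              have hF : F (Fm j) z ∈ Hs z (Fm j) :=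
                subset_affineSpan ℝ _ (Set.mem_insert _ _)
              refine ⟨w +ᵥ F (Fm j) z, AffineSubspace.vadd_mem_of_mem_direction hw3 hF, ?_⟩
              have e : F (Fm j) q - (w +ᵥ F (Fm j) z) =
                  (VV (Fm j)).starProjection (q - z) - w := by
                change qq (Fm j) + (VV (Fm j)).starProjection (q - qq (Fm j)) -
                  (w + (qq (Fm j) + (VV (Fm j)).starProjection (z - qq (Fm j)))) = _
                have e2 : (VV (Fm j)).starProjection (q - z) =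
                    (VV (Fm j)).starProjection (q - qq (Fm j)) -
                      (VV (Fm j)).starProjection (z - qq (Fm j)) := by
                  rw [← map_sub]
                  congr 1
                  abel
                rw [e2]
                abel
              rw [e]
              refine hw2.trans ?_
              have h4 : ‖(VV (Fm j)).starProjection (q - z)‖ ≤ 1 := by
                refine ((VV (Fm j)).starProjection.le_opNorm _).trans ?_
                have h5 := (VV (Fm j)).starProjection_norm_le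
                calc _ ≤ 1 * ‖q - z‖ := by gcongr
                  _ ≤ 1 := by linarith
              have h6 := hδ0 (kk (Fm j) + 1)
              nlinarith
          · rw [if_neg hb]
            obtain ⟨h1, h2⟩ := hgv i q z hqi hz hzq hb
            refine ⟨?_, ⟨_, hWle z (Fm j) h1, ?_⟩⟩
            · have h3 := tri (f (g i)) q z
              have h4 : 0 ≤ A / δ (kk (Fm j)) := by
                have := hδ0 (kk (Fm j))
                positivity
              linarith
            · rw [sub_self, norm_zero]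
              exact (hδ0 _).le
        intro y hy
        have hy2 : y ∈ slab z (Fm j) := convexHull_min hsubT hT hy
        refine ⟨z, hz, ?_, Or.inr (Set.mem_biUnion hSR hy2)⟩
        have h1 := hy2.1
        have h2 := hAd (Fm j) (hkd (Fm j) ⟨j, hbj, rfl⟩)
        rw [norm_sub_rev]
        linarith
      · have hT : Convex ℝ ((W z : Set E) ∩ closedBall q (C₀ + 4)) :=
          (W z).convex.inter (convex_closedBall _ _)
        have hsubT : {y | ∃ i, q ∈ ball i r ∧ y = h i q} ⊆ (W z : Set E) ∩ closedBall q (C₀ + 4) := by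
          rintro y ⟨i, hqi, rfl⟩
          change (if Bad i then F (Fm i) q else f (g i)) ∈ _
          have hb : ¬ Bad i := fun hb => hcase ⟨i, hb, hqi⟩
          rw [if_neg hb]
          obtain ⟨h1, h2⟩ := hgv i q z hqi hz hzq hb
          exact ⟨h1, by rw [mem_closedBall, dist_eq_norm]; exact h2⟩
        intro y hy
        have hy2 := convexHull_min hsubT hT hy
        refine ⟨z, hz, ?_, Or.inl hy2.1⟩
        have h1 := hy2.2
        rw [mem_closedBall, dist_eq_norm] at h1
        have h2 := tri z q y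
        rw [norm_sub_rev z q, norm_sub_rev q y] at h2
        have h3 : 0 ≤ A / δ d := by
          have := hδ0 d
          positivity
        linarith
  have hfinal := hCM X m (C₀ + 5 + A / δ d) (2 ^ M * ε) B hm (by have := hδ0 d; positivity)
    (by positivity) hX.sep hBvol (by
      intro p
      have hp : p ∈ {y : E | ∃ z ∈ X, ‖z - y‖ ≤ C₀ + 5 + A / δ d ∧ y ∈ B z} := by
        rw [hZ]; exact Set.mem_univ p
      exact hp)
  have h1 : v ≤ 2 ^ M * ε := by
    rw [hv]
    exact ENNReal.toReal_le_of_le_ofReal (by positivity) hfinal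
  have h2 : 2 ^ M * ε = v / 2 := by
    rw [hε, pow_succ]
    field_simp
  linarith

end Pool.Agent.Helper39.DL
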